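import Pool.Agent.K3h49.Lat.Stm2

/-!
# LAT2 brick HAN: leaving out one of `k` factors of a product set

Shearer's inequality for the set of the lexicographically smallest representations.
-/

set_option autoImplicit false

namespace Pool.Agent.K3h12.Lat

open Finset
open scoped Pointwise

section shearer

variable {n : ℕ} (S : Finset (Fin n → ℤ))

open Classical in
/-- the number of elements of `S` which differ from `x` at most in the coordinate `j` -/
noncomputable def F (j : Fin n) (x : Fin n → ℤ) : ℕ := (S.filter fun y => ∀ i, i ≠ j → y i = x i).card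

open Classical in
/-- the number of elements of `S` which agree with `x` in the first `m` coordinates -/
noncomputable def M (m : ℕ) (x : Fin n → ℤ) : ℕ :=
  (S.filter fun y => ∀ i : Fin n, (i : ℕ) < m → y i = x i).card

theorem F_pos {j : Fin n} {x : Fin n → ℤ} (hx : x ∈ S) : 1 ≤ F S j x := by
  classical
  unfold F
  rw [Nat.one_le_iff_ne_zero, Ne, Finset.card_eq_zero]
  intro h
  have : x ∈ S.filter fun y => ∀ i, i ≠ j → y i = x i := by
    rw [Finset.mem_filter]; exact ⟨hx, fun i _ => rfl⟩
  rw [h] at this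
  simp at this

theorem M_pos {m : ℕ} {x : Fin n → ℤ} (hx : x ∈ S) : 1 ≤ M S m x := by
  classical
  unfold M
  rw [Nat.one_le_iff_ne_zero, Ne, Finset.card_eq_zero]
  intro h
  have : x ∈ S.filter fun y => ∀ i : Fin n, (i : ℕ) < m → y i = x i := by
    rw [Finset.mem_filter]; exact ⟨hx, fun i _ => rfl⟩
  rw [h] at this
  simp at this

theorem M_congr {m : ℕ} {x y : Fin n → ℤ} (h : ∀ i : Fin n, (i : ℕ) < m → y i = x i) :
    M S m y = M S m x := by
  classical
  unfold M
  congr 1
  ext z
  simp only [Finset.mem_filter]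
  refine and_congr_right fun _ => forall_congr' fun i => ?_
  constructor
  · intro h1 hi; rw [h1 hi, h i hi]
  · intro h1 hi; rw [h1 hi, h i hi]

theorem sum_triples (j : Fin n) :
    ∑ x ∈ S, (F S j x : ℝ) * (M S (j + 1) x : ℝ) / (M S j x : ℝ) ≤ S.card := by
  classical
  have h1 : ∀ x ∈ S, (F S j x : ℝ) * (M S (j + 1) x : ℝ) / (M S j x : ℝ) =
      ∑ y ∈ S, ∑ z ∈ S, if ((∀ i, i ≠ j → y i = x i) ∧
        (∀ i : Fin n, (i : ℕ) < j + 1 → z i = x i)) then (1 / (M S j y : ℝ)) else 0 := by
    intro x hx
    have h2 : ∀ y ∈ S, (∑ z ∈ S, if ((∀ i, i ≠ j → y i = x i) ∧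
        (∀ i : Fin n, (i : ℕ) < j + 1 → z i = x i)) then (1 / (M S j y : ℝ)) else 0) =
        if (∀ i, i ≠ j → y i = x i) then (M S (j + 1) x : ℝ) / (M S j x : ℝ) else 0 := by
      intro y hy
      by_cases hyx : ∀ i, i ≠ j → y i = x i
      · rw [if_pos hyx]
        have e : M S j y = M S j x := M_congr S (fun i hi => hyx i (by
          intro h; rw [h] at hi; exact lt_irrefl _ hi))
        rw [e, ← Finset.sum_filter, Finset.sum_const, nsmul_eq_mul]
        have e2 : (S.filter fun z => (∀ i, i ≠ j → y i = x i) ∧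
            (∀ i : Fin n, (i : ℕ) < j + 1 → z i = x i)).card = M S (j + 1) x := by
          unfold M
          congr 1
          ext z
          simp only [Finset.mem_filter]
          exact and_congr_right fun _ => and_iff_right hyx
        rw [e2, mul_one_div]
      · simp only [hyx, false_and, if_false, Finset.sum_const_zero]
    rw [Finset.sum_congr rfl h2, ← Finset.sum_filter, Finset.sum_const, nsmul_eq_mul]
    unfold F
    ring
  rw [Finset.sum_congr rfl h1, Finset.sum_comm]
  have h3 : ∀ y ∈ S, (∑ x ∈ S, ∑ z ∈ S, if ((∀ i, i ≠ j → y i = x i) ∧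
        (∀ i : Fin n, (i : ℕ) < j + 1 → z i = x i)) then (1 / (M S j y : ℝ)) else 0) ≤ 1 := by
    intro y hy
    rw [Finset.sum_comm]
    have hM : (0 : ℝ) < M S j y := by exact_mod_cast M_pos S hy
    have h4 : ∀ z ∈ S, (∑ x ∈ S, if ((∀ i, i ≠ j → y i = x i) ∧
        (∀ i : Fin n, (i : ℕ) < j + 1 → z i = x i)) then (1 / (M S j y : ℝ)) else 0) ≤
        if (∀ i : Fin n, (i : ℕ) < j → z i = y i) then 1 / (M S j y : ℝ) else 0 := by
      intro z hz
      rw [← Finset.sum_filter, Finset.sum_const, nsmul_eq_mul]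
      by_cases hyz : ∀ i : Fin n, (i : ℕ) < j → z i = y i
      · rw [if_pos hyz]
        have hc : ((S.filter fun x => (∀ i, i ≠ j → y i = x i) ∧
            (∀ i : Fin n, (i : ℕ) < j + 1 → z i = x i)).card : ℝ) ≤ 1 := by
          have : (S.filter fun x => (∀ i, i ≠ j → y i = x i) ∧
            (∀ i : Fin n, (i : ℕ) < j + 1 → z i = x i)).card ≤ 1 := by
            rw [Finset.card_le_one]
            intro a ha b hb
            rw [Finset.mem_filter] at ha hb
            funext i
            by_cases hi : i = j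
            · rw [hi, ← ha.2.2 j (Nat.lt_succ_self _), ← hb.2.2 j (Nat.lt_succ_self _)]
            · rw [← ha.2.1 i hi, ← hb.2.1 i hi]
          exact_mod_cast this
        calc _ ≤ 1 * (1 / (M S j y : ℝ)) := mul_le_mul_of_nonneg_right hc (by positivity)
          _ = _ := one_mul _
      · rw [if_neg hyz]
        have : (S.filter fun x => (∀ i, i ≠ j → y i = x i) ∧
            (∀ i : Fin n, (i : ℕ) < j + 1 → z i = x i)) = ∅ := by
          rw [Finset.filter_eq_empty_iff]
          rintro x hx ⟨h5, h6⟩
          apply hyz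
          intro i hi
          rw [h6 i (by omega), h5 i (by rintro rfl; exact lt_irrefl _ hi)]
        rw [this]
        simp
    calc _ ≤ ∑ z ∈ S, if (∀ i : Fin n, (i : ℕ) < j → z i = y i) then 1 / (M S j y : ℝ) else 0 :=
          Finset.sum_le_sum h4
      _ = (M S j y : ℝ) * (1 / (M S j y : ℝ)) := by
          rw [← Finset.sum_filter, Finset.sum_const, nsmul_eq_mul]
          rfl
      _ = 1 := by field_simp
      _ ≤ 1 := le_rfl
  calc _ ≤ ∑ y ∈ S, (1 : ℝ) := Finset.sum_le_sum h3
    _ = S.card := by simp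

theorem entropy_step (j : Fin n) :
    ∑ x ∈ S, Real.log (F S j x) ≤
      ∑ x ∈ S, (Real.log (M S j x) - Real.log (M S (j + 1) x)) := by
  have h1 : ∀ x ∈ S, Real.log (F S j x) - (Real.log (M S j x) - Real.log (M S (j + 1) x)) ≤
      (F S j x : ℝ) * (M S (j + 1) x : ℝ) / (M S j x : ℝ) - 1 := by
    intro x hx
    have a1 : (0 : ℝ) < F S j x := by exact_mod_cast F_pos S hx
    have a2 : (0 : ℝ) < M S j x := by exact_mod_cast M_pos S hx
    have a3 : (0 : ℝ) < M S (j + 1) x := by exact_mod_cast M_pos S hx
    have h2 := Real.log_le_sub_one_of_pos (x := (F S j x : ℝ) * (M S (j + 1) x : ℝ) /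
      (M S j x : ℝ)) (by positivity)
    rw [Real.log_div (by positivity) a2.ne', Real.log_mul a1.ne' a3.ne'] at h2
    linarith
  have h2 := Finset.sum_le_sum h1
  have h3 := sum_triples S j
  have h4 : ∑ x ∈ S, ((F S j x : ℝ) * (M S (j + 1) x : ℝ) / (M S j x : ℝ) - 1) =
      ∑ x ∈ S, (F S j x : ℝ) * (M S (j + 1) x : ℝ) / (M S j x : ℝ) - S.card := by
    rw [Finset.sum_sub_distrib, Finset.sum_const, nsmul_eq_mul, mul_one]
  rw [h4, Finset.sum_sub_distrib] at h2
  linarith

theorem entropy : ∑ j : Fin n, ∑ x ∈ S, Real.log (F S j x) ≤ S.card * Real.log S.card := by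
  classical
  calc ∑ j : Fin n, ∑ x ∈ S, Real.log (F S j x)
      ≤ ∑ j : Fin n, ∑ x ∈ S, (Real.log (M S j x) - Real.log (M S (j + 1) x)) :=
        Finset.sum_le_sum fun j _ => entropy_step S j
    _ = ∑ x ∈ S, ∑ j : Fin n, (Real.log (M S j x) - Real.log (M S (j + 1) x)) :=
        Finset.sum_comm
    _ = ∑ x ∈ S, (Real.log (M S 0 x) - Real.log (M S n x)) := by
        refine Finset.sum_congr rfl fun x _ => ?_
        rw [Fin.sum_univ_eq_sum_range
          (fun j => Real.log (M S j x) - Real.log (M S (j + 1) x)) n]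
        exact Finset.sum_range_sub' (fun j => Real.log (M S j x)) n
    _ ≤ ∑ x ∈ S, Real.log S.card := by
        refine Finset.sum_le_sum fun x hx => ?_
        have e : M S 0 x = S.card := by
          unfold M
          simp
        rw [e]
        have : 0 ≤ Real.log (M S n x) := Real.log_nonneg (by exact_mod_cast M_pos S hx)
        linarith
    _ = S.card * Real.log S.card := by rw [Finset.sum_const, nsmul_eq_mul]

open Classical in
/-- the projection which forgets the coordinate `j` -/
noncomputable def q (j : Fin n) (x : Fin n → ℤ) : Fin n → ℤ := Function.update x j 0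

theorem q_eq_iff (j : Fin n) (x y : Fin n → ℤ) : q j y = q j x ↔ ∀ i, i ≠ j → y i = x i := by
  classical
  unfold q
  constructor
  · intro h i hi
    have := congrFun h i
    rwa [Function.update_of_ne hi, Function.update_of_ne hi] at this
  · intro h
    funext i
    by_cases hi : i = j
    · rw [hi, Function.update_self, Function.update_self]
    · rw [Function.update_of_ne hi, Function.update_of_ne hi, h i hi]

open Classical in
theorem card_proj (j : Fin n) : ((S.image (q j)).card : ℝ) = ∑ x ∈ S, 1 / (F S j x : ℝ) := by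
  have h1 := Finset.sum_fiberwise_of_maps_to (s := S) (t := S.image (q j)) (g := q j)
    (fun x hx => Finset.mem_image_of_mem _ hx) (fun x => 1 / (F S j x : ℝ))
  rw [← h1]
  have h2 : ∀ t ∈ S.image (q j), (∑ x ∈ S.filter (fun x => q j x = t), 1 / (F S j x : ℝ)) = 1 := by
    intro t ht
    obtain ⟨x₀, hx₀, rfl⟩ := Finset.mem_image.mp ht
    have h3 : ∀ x ∈ S.filter (fun x => q j x = q j x₀), 1 / (F S j x : ℝ) =
        1 / (F S j x₀ : ℝ) := by
      intro x hx
      rw [Finset.mem_filter] at hx
      have : F S j x = F S j x₀ := by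
        unfold F
        congr 1
        ext y
        simp only [Finset.mem_filter]
        refine and_congr_right fun _ => ?_
        rw [← q_eq_iff, ← q_eq_iff, hx.2]
      rw [this]
    rw [Finset.sum_congr rfl h3, Finset.sum_const, nsmul_eq_mul]
    have e : (S.filter (fun x => q j x = q j x₀)).card = F S j x₀ := by
      unfold F
      congr 1
      ext y
      simp only [Finset.mem_filter]
      refine and_congr_right fun _ => q_eq_iff j x₀ y
    rw [e]
    have : (0 : ℝ) < F S j x₀ := by exact_mod_cast F_pos S hx₀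
    field_simp
  rw [Finset.sum_congr rfl h2]
  simp

open Classical in
theorem proj_ge {j : Fin n} {m : ℝ}
    (h : ∑ x ∈ S, Real.log (F S j x) ≤ S.card * m) :
    (S.card : ℝ) * Real.exp (-m) ≤ (S.image (q j)).card := by
  rw [card_proj]
  have h1 : ∀ x ∈ S, Real.exp (-m) * (1 + m - Real.log (F S j x)) ≤ 1 / (F S j x : ℝ) := by
    intro x hx
    have a1 : (0 : ℝ) < F S j x := by exact_mod_cast F_pos S hx
    have h2 := Real.add_one_le_exp (m - Real.log (F S j x))
    calc Real.exp (-m) * (1 + m - Real.log (F S j x))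
        ≤ Real.exp (-m) * Real.exp (m - Real.log (F S j x)) :=
          mul_le_mul_of_nonneg_left (by linarith) (Real.exp_pos _).le
      _ = Real.exp (-Real.log (F S j x)) := by rw [← Real.exp_add]; congr 1; ring
      _ = 1 / (F S j x : ℝ) := by rw [Real.exp_neg, Real.exp_log a1, one_div]
  calc (S.card : ℝ) * Real.exp (-m)
      ≤ Real.exp (-m) * ∑ x ∈ S, (1 + m - Real.log (F S j x)) := by
        rw [Finset.sum_sub_distrib, Finset.sum_const, nsmul_eq_mul, mul_comm]
        exact mul_le_mul_of_nonneg_left (by linarith) (Real.exp_pos _).le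
    _ = ∑ x ∈ S, Real.exp (-m) * (1 + m - Real.log (F S j x)) := by rw [Finset.mul_sum]
    _ ≤ _ := Finset.sum_le_sum h1

end shearer

open Classical in
theorem shearer {k : ℕ} (hk : 1 ≤ k) (S : Finset (Fin (k + 1) → ℤ)) (hS : S.Nonempty) :
    ∃ j : Fin k, (S.card : ℝ) ^ (1 - 1 / (k : ℝ)) ≤ (S.image (q j.succ)).card := by
  have hkR : (0 : ℝ) < k := by exact_mod_cast hk
  have hc : (0 : ℝ) < S.card := by exact_mod_cast hS.card_pos
  have h1 := entropy S
  rw [Fin.sum_univ_succ] at h1
  have h0 : 0 ≤ ∑ x ∈ S, Real.log (F S 0 x) :=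
    Finset.sum_nonneg fun x hx => Real.log_nonneg (by exact_mod_cast F_pos S hx)
  have h2 : ∑ j : Fin k, ∑ x ∈ S, Real.log (F S j.succ x) ≤
      ∑ j : Fin k, (S.card : ℝ) * (Real.log S.card / k) := by
    rw [Finset.sum_const, nsmul_eq_mul, Finset.card_univ, Fintype.card_fin]
    have : (k : ℝ) * ((S.card : ℝ) * (Real.log S.card / k)) = S.card * Real.log S.card := by
      field_simp
    rw [this]
    linarith
  have hne : (Finset.univ : Finset (Fin k)).Nonempty := ⟨⟨0, hk⟩, Finset.mem_univ _⟩
  obtain ⟨j, -, hj⟩ := Finset.exists_le_of_sum_le hne h2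
  refine ⟨j, ?_⟩
  have h3 := proj_ge S hj
  refine le_trans (le_of_eq ?_) h3
  rw [Real.rpow_def_of_pos hc]
  nth_rw 2 [← Real.exp_log hc]
  rw [← Real.exp_add]
  congr 1
  ring

/-- the product of all coordinates -/
def P {k : ℕ} (x : Fin (k + 1) → ℤ) : ℤ := x 0 * ∏ i : Fin k, x i.succ

/-- the product of the coordinates different from `j` -/
def R {k : ℕ} (j : Fin k) (x : Fin (k + 1) → ℤ) : ℤ :=
  x 0 * ∏ i ∈ Finset.univ.erase j, x i.succ

theorem P_eq {k : ℕ} (j : Fin k) (x : Fin (k + 1) → ℤ) : P x = R j x * x j.succ := by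
  unfold P R
  rw [← Finset.prod_erase_mul Finset.univ (fun i : Fin k => x i.succ) (Finset.mem_univ j)]
  ring

theorem R_congr {k : ℕ} (j : Fin k) {x y : Fin (k + 1) → ℤ} (h : ∀ i, i ≠ j.succ → y i = x i) :
    R j y = R j x := by
  unfold R
  rw [h 0 (Fin.succ_ne_zero j).symm]
  congr 1
  refine Finset.prod_congr rfl fun i hi => h _ ?_
  rw [Finset.mem_erase] at hi
  intro h2
  exact hi.1 (Fin.succ_injective _ h2)

theorem t_han : Pool.Agent.K3h49.Lat.HanStm := by
  classical
  intro k hk A Y hA hY
  let X : Fin (k + 1) → Finset ℤ := Fin.cons A Y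
  let T : Finset (Fin (k + 1) → ℤ) := Fintype.piFinset X
  have hX0 : X 0 = A := rfl
  have hXs : ∀ i : Fin k, X i.succ = Y i := fun i => rfl
  let S : Finset (Fin (k + 1) → ℤ) := T.filter fun x => ∀ y ∈ T, P y = P x → toLex x ≤ toLex y
  -- every product is represented in `S`
  have hrep : A * ∏ i, Y i ⊆ S.image P := by
    intro z hz
    rw [Finset.mem_mul] at hz
    obtain ⟨a, ha, b, hb, rfl⟩ := hz
    have hb' : b ∈ (∏ i, (Y i : Set ℤ)) := by
      rw [← Finset.coe_prod]; exact_mod_cast hb
    rw [Set.mem_fintype_prod] at hb'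
    obtain ⟨g, hg, rfl⟩ := hb'
    have hfib : (T.filter fun x => P x = a * ∏ i, g i).Nonempty := by
      refine ⟨Fin.cons a g, ?_⟩
      rw [Finset.mem_filter, Fintype.mem_piFinset]
      refine ⟨fun i => ?_, ?_⟩
      · refine Fin.cases ?_ (fun i => ?_) i
        · exact ha
        · exact hg i
      · simp [P]
    obtain ⟨x, hx, hmin⟩ := Finset.exists_min_image _ (fun x => toLex x) hfib
    rw [Finset.mem_filter] at hx
    rw [Finset.mem_image]
    refine ⟨x, ?_, hx.2⟩
    rw [Finset.mem_filter]
    refine ⟨hx.1, fun y hy hyx => hmin y ?_⟩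
    rw [Finset.mem_filter]
    exact ⟨hy, hyx.trans hx.2⟩
  have hcard : (A * ∏ i, Y i).card ≤ S.card :=
    (Finset.card_le_card hrep).trans Finset.card_image_le
  have hprodne : (A * ∏ i, Y i).Nonempty := by
    choose g hg using hY
    obtain ⟨a, ha⟩ := hA
    refine ⟨a * ∏ i, g i, Finset.mul_mem_mul ha ?_⟩
    have : (∏ i, g i) ∈ (∏ i, (Y i : Set ℤ)) := by
      rw [Set.mem_fintype_prod]
      exact ⟨g, fun i => hg i, rfl⟩
    rw [← Finset.coe_prod] at this
    exact_mod_cast this
  have hSne : S.Nonempty := by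
    rw [← Finset.card_pos]
    exact lt_of_lt_of_le hprodne.card_pos hcard
  obtain ⟨j, hj⟩ := shearer hk S hSne
  refine ⟨j, ?_⟩
  have hexp : 0 ≤ 1 - 1 / (k : ℝ) := by
    have : (1 : ℝ) ≤ k := by exact_mod_cast hk
    rw [sub_nonneg, div_le_one (by linarith)]
    exact this
  have h1 : ((A * ∏ i, Y i).card : ℝ) ^ (1 - 1 / (k : ℝ)) ≤ (S.card : ℝ) ^ (1 - 1 / (k : ℝ)) :=
    Real.rpow_le_rpow (Nat.cast_nonneg _) (by exact_mod_cast hcard) hexp
  refine h1.trans (hj.trans ?_)
  -- the product over the other coordinates is injective on the projection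
  have key : ∀ x ∈ S, ∀ y ∈ S, R j x = R j y → ¬ toLex (q j.succ x) < toLex (q j.succ y) := by
    intro x hx y hy hR hlt
    rw [Finset.mem_filter] at hx hy
    let y' : Fin (k + 1) → ℤ := Function.update x j.succ (y j.succ)
    have hy'T : y' ∈ T := by
      rw [Fintype.mem_piFinset]
      intro i
      by_cases hi : i = j.succ
      · rw [hi]
        show Function.update x j.succ (y j.succ) j.succ ∈ X j.succ
        rw [Function.update_self]
        exact (Fintype.mem_piFinset.mp hy.1) j.succ
      · show Function.update x j.succ (y j.succ) i ∈ X i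
        rw [Function.update_of_ne hi]
        exact (Fintype.mem_piFinset.mp hx.1) i
    have hR' : R j y' = R j x := R_congr j (fun i hi => Function.update_of_ne hi _ _)
    have hP : P y' = P y := by
      rw [P_eq j y', P_eq j y, hR', hR]
      congr 1
      exact Function.update_self _ _ _
    have h2 := hy.2 y' hy'T hP
    have e1 : y' = q j.succ x + Pi.single j.succ (y j.succ) := by
      funext i
      by_cases hi : i = j.succ
      · rw [hi]
        simp [y', q]
      · simp [y', q, Function.update_of_ne hi, Pi.single_eq_of_ne hi]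
    have e2 : y = q j.succ y + Pi.single j.succ (y j.succ) := by
      funext i
      by_cases hi : i = j.succ
      · rw [hi]
        simp [q]
      · simp [q, Function.update_of_ne hi, Pi.single_eq_of_ne hi]
    have h3 : toLex y' < toLex y := by
      rw [e1]
      conv_rhs => rw [e2]
      rw [toLex_add, toLex_add]
      exact add_lt_add_left hlt _
    exact absurd h2 (not_le.mpr h3)
  have hfin : (S.image (q j.succ)).card ≤ (A * ∏ i ∈ Finset.univ.erase j, Y i).card := by
    refine Finset.card_le_card_of_injOn (R j) ?_ ?_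
    · intro t ht
      rw [Finset.mem_coe, Finset.mem_image] at ht
      obtain ⟨x, hx, rfl⟩ := ht
      rw [Finset.mem_filter] at hx
      have e : R j (q j.succ x) = R j x := R_congr j (fun i hi => Function.update_of_ne hi _ _)
      rw [e]
      refine Finset.mul_mem_mul ((Fintype.mem_piFinset.mp hx.1) 0) ?_
      have : (∏ i ∈ Finset.univ.erase j, x i.succ) ∈
          (∏ i ∈ Finset.univ.erase j, (Y i : Set ℤ)) := by
        rw [Set.mem_finsetProd]
        exact ⟨fun i => x i.succ, fun {i} _ => (Fintype.mem_piFinset.mp hx.1) i.succ, rfl⟩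
      rw [← Finset.coe_prod] at this
      exact_mod_cast this
    · intro t ht t' ht' htt
      rw [Finset.mem_coe, Finset.mem_image] at ht ht'
      obtain ⟨x, hx, rfl⟩ := ht
      obtain ⟨y, hy, rfl⟩ := ht'
      have e : R j (q j.succ x) = R j x := R_congr j (fun i hi => Function.update_of_ne hi _ _)
      have e' : R j (q j.succ y) = R j y := R_congr j (fun i hi => Function.update_of_ne hi _ _)
      have h2 : R j x = R j y := by rw [← e, ← e']; exact htt
      have h3 := key x hx y hy h2
      have h4 := key y hy x hx h2.symm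
      exact toLex_inj.mp (le_antisymm (not_lt.mp h4) (not_lt.mp h3))
  exact_mod_cast hfin

end Pool.Agent.K3h12.Lat
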